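import Pool.Agent.H948.SF.Stm
import Pool.Agent.H948.SF.Base

/-!
# [GW] The backward chains of blocks survive with positive probability
-/

namespace Pool.Agent.H59.SF

open MeasureTheory ProbabilityTheory Set Filter
open Pool.Agent.H948.SF
open scoped ENNReal NNReal Nat Topology

variable {e : ℕ}

/-- Labels all whose vertices are descendants of `c`. -/
def Dn (c : W e) : Set (Lab (W e)) :=
  {l | match l with
    | Sum.inl s => ∀ x ∈ s, c <:+ x
    | Sum.inr x => c <:+ x}

theorem Dn_anti {c d : W e} (h : c <:+ d) : Dn d ⊆ Dn c := by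
  intro l hl
  cases l with
  | inl s => exact fun x hx => h.trans (hl x hx)
  | inr x => exact h.trans hl

theorem Dn_disj {c w w' : W e} (hl : w.length = w'.length) (hne : w ≠ w') (l : Lab (W e))
    (h : l ∈ Dn (w ++ c)) (h' : l ∈ Dn (w' ++ c)) : False := by
  have key : ∀ x : W e, (w ++ c) <:+ x → (w' ++ c) <:+ x → False := by
    rintro x ⟨u, hu⟩ ⟨u', hu'⟩
    apply hne
    have h1 : u ++ (w ++ c) = u' ++ (w' ++ c) := hu.trans hu'.symm
    rw [← List.append_assoc, ← List.append_assoc] at h1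
    have h2 : u ++ w = u' ++ w' := List.append_cancel_right h1
    exact (List.append_inj' h2 hl).2
  cases l with
  | inl s =>
    induction s using Sym2.ind with
    | _ x y => exact key x (h x (by simp)) (h' x (by simp))
  | inr x => exact key x h h'

/-- Cells used by a block. -/
theorem Blk_congr {M τ : ℕ} {ω ω' : Env (Lab (W e))} {c : W e} {t : ℤ} {w : W e}
    (h : ∀ i : Lab (W e) × ℤ, i.1 ∈ Dn c → (t - 1) * τ ≤ i.2 → i.2 < t * τ → ω i = ω' i) :
    Blk e M τ ω c t w ↔ Blk e M τ ω' c t w := by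
  unfold Blk
  refine Con_congr ?_
  rintro ⟨l, n⟩ ⟨h1, h2, h3⟩
  refine h (l, n) ?_ h1 h2
  rcases h3 with ⟨u, v, huv, rfl⟩ | ⟨u, hu, rfl⟩
  · obtain ⟨-, ⟨u', -, rfl⟩, ⟨v', -, rfl⟩⟩ := huv
    intro x hx
    rcases Sym2.mem_iff.1 hx with rfl | rfl
    · exact List.suffix_append _ _
    · exact List.suffix_append _ _
  · rcases hu with rfl | ⟨v, huv⟩
    · exact List.suffix_append _ _
    · obtain ⟨-, ⟨u', -, rfl⟩, -⟩ := huv
      exact List.suffix_append _ _

theorem Sv_congr {M τ : ℕ} {ω ω' : Env (Lab (W e))} : ∀ (i : ℕ) (c : W e) (t : ℤ),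
    (∀ i : Lab (W e) × ℤ, i.1 ∈ Dn c → i.2 < t * τ → ω i = ω' i) →
    (Sv e M τ ω i c t ↔ Sv e M τ ω' i c t)
  | 0, _, _, _ => Iff.rfl
  | i + 1, c, t, h => by
    have hb : ∀ w, Blk e M τ ω c t w ↔ Blk e M τ ω' c t w := fun w =>
      Blk_congr fun j hj _ hj2 => h j hj hj2
    have hs : ∀ w, Sv e M τ ω i (w ++ c) (t - 1) ↔ Sv e M τ ω' i (w ++ c) (t - 1) := fun w =>
      Sv_congr i (w ++ c) (t - 1) fun j hj hj2 => h j (Dn_anti (List.suffix_append _ _) hj)
        (lt_of_lt_of_le hj2 (by nlinarith [Int.natCast_nonneg τ]))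
    simp only [Sv, hb, hs]

theorem Blk_meas (h3 : S_MEAS) (M τ : ℕ) (c : W e) (t : ℤ) (w : W e) :
    MeasurableSet {ω : Env (Lab (W e)) | Blk e M τ ω c t w} :=
  h3 (W e) _ _ _ _ _

theorem Sv_meas (h3 : S_MEAS) (M τ : ℕ) : ∀ (i : ℕ) (c : W e) (t : ℤ),
    MeasurableSet {ω : Env (Lab (W e)) | Sv e M τ ω i c t}
  | 0, _, _ => by
    simp only [Sv]
    exact MeasurableSet.univ
  | i + 1, c, t => by
    have h : {ω : Env (Lab (W e)) | Sv e M τ ω (i + 1) c t} =
        ⋃ w ∈ Lset e M, ({ω : Env (Lab (W e)) | Blk e M τ ω c t w} ∩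
          {ω : Env (Lab (W e)) | Sv e M τ ω i (w ++ c) (t - 1)}) := by
      ext ω
      simp only [Sv, mem_ofPred_eq, mem_iUnion, mem_inter_iff, exists_prop]
    rw [h]
    refine MeasurableSet.biUnion (Set.to_countable _) fun w _ => ?_
    exact (Blk_meas h3 M τ c t w).inter (Sv_meas h3 M τ i (w ++ c) (t - 1))

/-- The independence needed in one generation. -/
theorem gen_indep (h2 : S_BLOCK) (h3 : S_MEAS) (lam : ℝ) (M τ : ℕ) [Fintype (Lset e M)] (i : ℕ)
    (c : W e) (t : ℤ) (A B : Set (Lset e M)) :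
    mu (W e) lam ({ω | {w : Lset e M | ω ∈ {ω | Blk e M τ ω c t w}} = A} ∩
        ⋂ w ∈ B, {ω | Sv e M τ ω i ((w : W e) ++ c) (t - 1)}ᶜ) =
      mu (W e) lam {ω | {w : Lset e M | ω ∈ {ω | Blk e M τ ω c t w}} = A} *
        ∏ w : Lset e M, (open Classical in
          if w ∈ B then mu (W e) lam {ω | Sv e M τ ω i ((w : W e) ++ c) (t - 1)}ᶜ else 1) := by
  classical
  let Y : ∀ _ : Option (Lset e M), Env (Lab (W e)) → Set (Lset e M) := fun k ω =>
    match k with
    | none => {w : Lset e M | Blk e M τ ω c t w}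
    | some w => {_w' : Lset e M | Sv e M τ ω i ((w : W e) ++ c) (t - 1)}
  let I : Option (Lset e M) → Set (Lab (W e) × ℤ) := fun k =>
    match k with
    | none => {j | (t - 1) * τ ≤ j.2 ∧ j.2 < t * τ}
    | some w => {j | j.1 ∈ Dn ((w : W e) ++ c) ∧ j.2 < (t - 1) * τ}
  have hYm : ∀ k, Measurable (Y k) := by
    intro k
    rw [measurable_set_iff]
    intro w'
    cases k with
    | none => exact measurableSet_setOfPred.1 (Blk_meas h3 M τ c t w')
    | some w => exact measurableSet_setOfPred.1 (Sv_meas h3 M τ i ((w : W e) ++ c) (t - 1))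
  have hdep : ∀ k (ω ω' : Env (Lab (W e))), (∀ j ∈ I k, ω j = ω' j) → Y k ω = Y k ω' := by
    intro k ω ω' h
    cases k with
    | none =>
      ext w
      exact Blk_congr fun j _ hj1 hj2 => h j ⟨hj1, hj2⟩
    | some w =>
      ext w'
      exact Sv_congr i _ _ fun j hj1 hj2 => h j ⟨hj1, hj2⟩
  have hdisj : ∀ k k', k ≠ k' → Disjoint (I k) (I k') := by
    intro k k' hkk
    rw [Set.disjoint_left]
    intro j hj hj'
    cases k with
    | none =>
      cases k' with
      | none => exact hkk rfl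
      | some w' => exact absurd hj'.2 (not_lt.2 hj.1)
    | some w =>
      cases k' with
      | none => exact absurd hj.2 (not_lt.2 hj'.1)
      | some w' =>
        refine Dn_disj (w := (w : W e)) (w' := (w' : W e)) (c := c) ?_ ?_ j.1 hj.1 hj'.1
        · rw [w.2.2, w'.2.2]
        · intro hww
          exact hkk (congrArg some (Subtype.ext hww))
  have hind := h2 (Lab (W e) × ℤ) (fun j => contactRate lam j.1) (Option (Lset e M))
    (fun _ => Set (Lset e M)) Y I hYm hdep hdisj
  let Z : Option (Lset e M) → Set (Set (Lset e M)) := fun k => match k with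
      | none => {A}
      | some w => if w ∈ B then {S : Set (Lset e M) | w ∉ S} else univ
  have hmul := hind.measure_inter_preimage_eq_mul Finset.univ
    (sets := Z) (by
      intro k _
      cases k with
      | none => exact MeasurableSet.singleton A
      | some w =>
        show MeasurableSet (if w ∈ B then {S : Set (Lset e M) | w ∉ S} else univ)
        by_cases hw : w ∈ B
        · simp only [hw, if_true]
          exact (measurable_set_mem w).setOf.compl
        · simp only [hw, if_false]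
          exact MeasurableSet.univ)
  have hL : ({ω | {w : Lset e M | ω ∈ {ω | Blk e M τ ω c t w}} = A} ∩
        ⋂ w ∈ B, {ω | Sv e M τ ω i ((w : W e) ++ c) (t - 1)}ᶜ : Set (Env (Lab (W e)))) =
      ⋂ k ∈ (Finset.univ : Finset (Option (Lset e M))), Y k ⁻¹' Z k := by
    ext ω
    simp only [mem_inter_iff, mem_iInter]
    constructor
    · rintro ⟨ha, hb⟩ k -
      cases k with
      | none => exact ha
      | some w =>
        show Y (some w) ω ∈ (if w ∈ B then {S : Set (Lset e M) | w ∉ S} else univ)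
        by_cases hw : w ∈ B
        · simp only [hw, if_true]
          exact hb w hw
        · simp only [hw, if_false]
          exact mem_univ _
    · intro h
      refine ⟨h none (Finset.mem_univ _), fun w hw => ?_⟩
      have h5 : Y (some w) ω ∈ (if w ∈ B then {S : Set (Lset e M) | w ∉ S} else univ) :=
        h (some w) (Finset.mem_univ _)
      simp only [hw, if_true] at h5
      exact h5
  rw [hL]
  have hmu : mu (W e) lam = Measure.infinitePi fun j : Lab (W e) × ℤ => cellLaw (contactRate lam j.1) := rfl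
  rw [hmu, hmul, Fintype.prod_option]
  refine congrArg₂ (· * ·) rfl ?_
  refine Finset.prod_congr rfl fun w _ => ?_
  have h6 : Z (some w) = (if w ∈ B then {S : Set (Lset e M) | w ∉ S} else univ) := rfl
  rw [h6]
  by_cases hw : w ∈ B
  · simp only [hw, if_true]
    rfl
  · simp only [hw, if_false, preimage_univ]
    exact measure_univ

/-- **[GW]** -/
theorem s_gw (h1 : S_RIX) (h2 : S_BLOCK) (h3 : S_MEAS) (h4 : S_GWN) : S_GW := by
  classical
  intro e lam M τ hlam hM hτ hsum
  have : Fintype (Lset e M) := (Lset_finite e M).fintype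
  rw [tsum_fintype] at hsum
  -- probability of a block
  have hX : ∀ (c : W e) (t : ℤ) (w : Lset e M), mu (W e) lam {ω | Blk e M τ ω c t w} =
      mu (W e) lam {ω | Con (Rs (TW e) (Bset e M)) ω w (-(τ : ℤ)) [] 0} := by
    intro c t w
    have hmp := h1.2 (W e) (W e) lam (fun u => u ++ c) (t * τ) (app_injective c)
    have hms : MeasurableSet {ω : Env (Lab (W e)) |
        Con (Rs (TW e) (Bset e M)) ω w (-(τ : ℤ)) [] 0} := h3 (W e) _ _ _ _ _
    rw [← hmp.measure_preimage hms.nullMeasurableSet]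
    congr 1
    ext ω
    exact Blk_iff M τ ω c t w
  -- the choice of ε
  set m : ℝ≥0∞ := ∑ w : Lset e M,
    mu (W e) lam {ω | Con (Rs (TW e) (Bset e M)) ω w (-(τ : ℤ)) [] 0} with hm
  have hmfin : m ≠ ∞ := by
    rw [hm]
    exact (ENNReal.sum_lt_top.2 fun w _ => measure_lt_top _ _).ne
  have hm1 : 1 < m.toReal := by
    rw [← ENNReal.toReal_one]
    exact (ENNReal.toReal_lt_toReal ENNReal.one_ne_top hmfin).2 hsum
  set D : ℝ := (Fintype.card (Lset e M) : ℝ) with hD
  have hD0 : 0 ≤ D := Nat.cast_nonneg _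
  set ε : ℝ := min 1 ((m.toReal - 1) / (D + 1)) with hε
  have hε0 : 0 < ε := lt_min one_pos (div_pos (by linarith) (by linarith))
  have hε1 : ε ≤ 1 := min_le_left _ _
  have hεD : 1 + D * ε ≤ m.toReal := by
    have h5 : ε ≤ (m.toReal - 1) / (D + 1) := min_le_right _ _
    rw [le_div_iff₀ (by linarith)] at h5
    nlinarith
  have hεm : ENNReal.ofReal (1 + (Fintype.card (Lset e M) : ℝ) * ε) ≤ m := by
    rw [← ENNReal.ofReal_toReal hmfin]
    exact ENNReal.ofReal_le_ofReal hεD
  -- induction
  have key : ∀ (i : ℕ) (c : W e) (t : ℤ),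
      ENNReal.ofReal ε ≤ mu (W e) lam {ω | Sv e M τ ω i c t} := by
    intro i
    induction i with
    | zero =>
      intro c t
      have h6 : {ω : Env (Lab (W e)) | Sv e M τ ω 0 c t} = univ := by
        ext ω
        simp [Sv]
      rw [h6, measure_univ]
      exact ENNReal.ofReal_le_one.2 hε1
    | succ i ih =>
      intro c t
      have h7 := h4 (Lset e M) (Env (Lab (W e))) (mu (W e) lam)
        (fun w => {ω | Blk e M τ ω c t w})
        (fun w => {ω | Sv e M τ ω i ((w : W e) ++ c) (t - 1)}) ε hε0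
        (fun w => Blk_meas h3 M τ c t w)
        (fun w => Sv_meas h3 M τ i ((w : W e) ++ c) (t - 1))
        (fun A B => gen_indep h2 h3 lam M τ i c t A B)
        (fun w => ih _ _)
        (by
          have h8 : ∑ w : Lset e M, mu (W e) lam {ω | Blk e M τ ω c t w} = m :=
            Finset.sum_congr rfl fun w _ => hX c t w
          rw [h8]
          exact hεm)
      refine h7.trans (le_of_eq ?_)
      congr 1
      ext ω
      simp only [Sv, mem_ofPred_eq]
      constructor
      · rintro ⟨w, ha, hb⟩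
        exact ⟨w, w.2, ha, hb⟩
      · rintro ⟨w, hw, ha, hb⟩
        exact ⟨⟨w, hw⟩, ha, hb⟩
  refine ⟨ENNReal.ofReal ε, ENNReal.ofReal_pos.2 hε0, fun c t => ?_⟩
  have hanti : Antitone fun i : ℕ => {ω : Env (Lab (W e)) | Sv e M τ ω i c t} :=
    antitone_nat_of_succ_le fun i ω hω => Sv_of_succ hω
  have h9 : {ω : Env (Lab (W e)) | ∀ i, Sv e M τ ω i c t} =
      ⋂ i : ℕ, {ω : Env (Lab (W e)) | Sv e M τ ω i c t} := by
    ext ω
    simp
  rw [h9, hanti.measure_iInter (fun i => (Sv_meas h3 M τ i c t).nullMeasurableSet)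
    ⟨0, measure_ne_top _ _⟩]
  exact le_iInf fun i => key i c t

end Pool.Agent.H59.SF
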